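import Pool.Agent.Q99.XF.Stm
import Pool.Agent.Q237.HT.MPX
import Pool.Agent.Q237.HT.GPX

/-!
# The near points: a sum over a box of lattice points is an integral
-/

set_option autoImplicit false

namespace Pool.Agent.Q99.XF

open Finset Filter Topology MeasureTheory
open Pool.Agent.Q99.HT

lemma ld_of {d : ℕ} {f : (Fin d → ℂ) → ℂ} {U : Set (Fin d → ℂ)} (hU : IsOpen U)
    (hf : DifferentiableOn ℂ f U) : LD f U := by
  refine ⟨hf.continuousOn, fun x hx u => ?_⟩
  have h1 : DifferentiableAt ℂ f (x + (0 : ℂ) • u) := by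
    simpa using hf.differentiableAt (hU.mem_nhds hx)
  exact DifferentiableAt.comp (0 : ℂ) (g := f) (f := fun t : ℂ => x + t • u) h1 (by fun_prop)

/-- the choice of the height -/
lemma height (R κ K δ : ℝ) (d : ℕ) (hR : 0 < R) (hκ : 0 < κ) (hK : 0 < K) (hδ : 0 < δ) :
    ∃ t : ℝ, 0 < t ∧ t ≤ 1 ∧ t ≤ R / 4 ∧ K * d * t ^ 2 ≤ Real.pi * t ∧
      K * d * t ^ 2 ≤ κ * δ ^ 2 / 8 := by
  have hd : (0 : ℝ) < d + 1 := by positivity
  refine ⟨min (min 1 (R / 4)) (min (Real.pi / (K * (d + 1))) (κ * δ ^ 2 / 8 / (K * (d + 1)))),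
    ?_, ?_, ?_, ?_, ?_⟩
  · refine lt_min (lt_min one_pos (by positivity)) (lt_min ?_ ?_)
    · have := Real.pi_pos
      positivity
    · positivity
  · exact (min_le_left _ _).trans (min_le_left _ _)
  · exact (min_le_left _ _).trans (min_le_right _ _)
  · set t := min (min 1 (R / 4)) (min (Real.pi / (K * (d + 1))) (κ * δ ^ 2 / 8 / (K * (d + 1))))
      with ht
    have h0 : 0 < t := by
      rw [ht]
      refine lt_min (lt_min one_pos (by positivity)) (lt_min ?_ ?_)
      · have := Real.pi_pos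
        positivity
      · positivity
    have h1 : t ≤ Real.pi / (K * (d + 1)) := (min_le_right _ _).trans (min_le_left _ _)
    rw [le_div_iff₀ (by positivity)] at h1
    have h2 : K * d * t ≤ Real.pi := by nlinarith [mul_pos hK h0]
    calc K * d * t ^ 2 = K * d * t * t := by ring
      _ ≤ Real.pi * t := mul_le_mul_of_nonneg_right h2 h0.le
  · set t := min (min 1 (R / 4)) (min (Real.pi / (K * (d + 1))) (κ * δ ^ 2 / 8 / (K * (d + 1))))
      with ht
    have h0 : 0 < t := by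
      rw [ht]
      refine lt_min (lt_min one_pos (by positivity)) (lt_min ?_ ?_)
      · have := Real.pi_pos
        positivity
      · positivity
    have h1 : t ≤ κ * δ ^ 2 / 8 / (K * (d + 1)) := (min_le_right _ _).trans (min_le_right _ _)
    rw [le_div_iff₀ (by positivity)] at h1
    have h3 : t ≤ 1 := (min_le_left _ _).trans (min_le_left _ _)
    have h2 : K * d * t ≤ κ * δ ^ 2 / 8 := by nlinarith [mul_pos hK h0]
    have h4 : 0 ≤ K * d * t := by positivity
    calc K * d * t ^ 2 = K * d * t * t := by ring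
      _ ≤ K * d * t * 1 := mul_le_mul_of_nonneg_left h3 h4
      _ ≤ κ * δ ^ 2 / 8 := by linarith

/-- the ends of the boxes -/
lemma ends {N : ℕ} {τ δ : ℝ} (hN : 1 ≤ N) (hδ : 1 ≤ δ * N) :
    (τ - δ - 1 / (2 * N) ≤ lo N ⌈(N : ℝ) * (τ - δ)⌉ ∧
      lo N ⌈(N : ℝ) * (τ - δ)⌉ ≤ τ - δ / 2) ∧
    (hi N ⌊(N : ℝ) * (τ + δ)⌋ ≤ τ + δ + 1 / (2 * N) ∧
      τ + δ / 2 ≤ hi N ⌊(N : ℝ) * (τ + δ)⌋) ∧
    ⌈(N : ℝ) * (τ - δ)⌉ ≤ ⌊(N : ℝ) * (τ + δ)⌋ ∧
    ((⌊(N : ℝ) * (τ + δ)⌋ : ℝ) - ⌈(N : ℝ) * (τ - δ)⌉ + 1 ≤ (2 * δ + 2) * N) := by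
  have hN0 : (0 : ℝ) < N := by exact_mod_cast hN
  have hN1 : (1 : ℝ) ≤ N := by exact_mod_cast hN
  have h1 := Int.le_ceil ((N : ℝ) * (τ - δ))
  have h2 := Int.ceil_lt_add_one ((N : ℝ) * (τ - δ))
  have h3 := Int.floor_le ((N : ℝ) * (τ + δ))
  have h4 := Int.lt_floor_add_one ((N : ℝ) * (τ + δ))
  unfold lo hi
  refine ⟨⟨?_, ?_⟩, ⟨?_, ?_⟩, ?_, ?_⟩
  · rw [le_div_iff₀ hN0]
    have e : (τ - δ - 1 / (2 * N)) * N = N * (τ - δ) - 1 / 2 := by field_simp
    rw [e]
    linarith
  · rw [div_le_iff₀ hN0]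
    nlinarith
  · rw [div_le_iff₀ hN0]
    have e : (τ + δ + 1 / (2 * N)) * N = N * (τ + δ) + 1 / 2 := by field_simp
    rw [e]
    linarith
  · rw [le_div_iff₀ hN0]
    nlinarith
  · rw [Int.le_floor]
    nlinarith
  · nlinarith

theorem task_RX1 : S_RX1 := by
  intro d τ R κ K B hR hκ hK hB q H hq hqb hH hHB δ hδ hδR
  obtain ⟨t, ht, ht1, htR, htπ, htκ⟩ := height R κ K δ d hR hκ hK hδ
  obtain ⟨C, hC, hM⟩ := Pool.Agent.Q237.HT.task_MPX Pool.Agent.Q237.HT.task_GPX d
  have hpi := Real.pi_pos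
  set c0 : ℝ := min (Real.pi * t) (κ * δ ^ 2 / 8) with hc0
  have hc0p : 0 < c0 := lt_min (by positivity) (by positivity)
  set W : Set (Fin d → ℝ) := Metric.closedBall 0 (2 * δ) with hW
  have hWm : ∀ y : Fin d → ℝ, y ∈ W ↔ ∀ j, |y j| ≤ 2 * δ := by
    intro y
    rw [hW, mem_closedBall_zero_iff, pi_norm_le_iff_of_nonneg (by positivity)]
    simp only [Real.norm_eq_abs]
  refine ⟨c0, C * (2 * δ + 2) ^ d * (2 * B) + B * volume.real W, hc0p, ?_⟩
  have hbig : ∀ᶠ N : ℕ in atTop, 1 ≤ δ * N ∧ 1 ≤ t * N ∧ 4 / R ≤ N := by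
    have h1 := (tendsto_natCast_atTop_atTop (R := ℝ)).const_mul_atTop hδ
    have h2 := (tendsto_natCast_atTop_atTop (R := ℝ)).const_mul_atTop ht
    filter_upwards [h1.eventually_ge_atTop 1, h2.eventually_ge_atTop 1,
      (tendsto_natCast_atTop_atTop (R := ℝ)).eventually_ge_atTop (4 / R)] with N g1 g2 g3
    exact ⟨g1, g2, g3⟩
  filter_upwards [hbig, hH, hHB, eventually_ge_atTop 1] with N hN hHN hHBN hN1
  obtain ⟨hN2, hN3, hN4⟩ := hN
  have hN0 : (0 : ℝ) < N := by exact_mod_cast hN1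
  have hN1r : (1 : ℝ) ≤ N := by exact_mod_cast hN1
  have hNR : 1 / (2 * (N : ℝ)) ≤ R / 8 := by
    rw [div_le_iff₀ hR] at hN4
    rw [div_le_iff₀ (by positivity)]
    nlinarith
  set a : Fin d → ℤ := fun j => ⌈(N : ℝ) * (τ j - δ)⌉ with ha
  set b : Fin d → ℤ := fun j => ⌊(N : ℝ) * (τ j + δ)⌋ with hb
  have hen := fun j => ends (τ := τ j) hN1 hN2
  -- the function
  set g : (Fin d → ℂ) → ℂ := fun u => Complex.exp (N * q u) * H N u with hg
  set tr : (Fin d → ℂ) → (Fin d → ℂ) := fun X j => X j - τ j with htr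
  set U : Set (Fin d → ℂ) := tr ⁻¹' Metric.ball 0 R with hU
  have htrc : Continuous tr := by
    rw [htr]
    fun_prop
  have hUo : IsOpen U := Metric.isOpen_ball.preimage htrc
  have hgd : DifferentiableOn ℂ g (Metric.ball 0 R) :=
    ((hq.const_mul (N : ℂ)).cexp).mul hHN
  have htrd : Differentiable ℂ tr := by
    rw [differentiable_pi]
    intro j
    show Differentiable ℂ fun X : Fin d → ℂ => X j - τ j
    fun_prop
  have hfd : DifferentiableOn ℂ (g ∘ tr) U :=
    hgd.comp htrd.differentiableOn fun x hx => hx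
  -- the bound
  have hgb : ∀ u ∈ Metric.ball (0 : Fin d → ℂ) R, ∀ s : ℝ, (∀ j, |(u j).im| ≤ s) →
      ‖g u‖ ≤ B * Real.exp (N * (-κ * ∑ j, (u j).re ^ 2 + K * d * s ^ 2)) := by
    intro u hu s hs
    have h1 := hqb u hu
    have h2 : K * ∑ j, (u j).im ^ 2 ≤ K * d * s ^ 2 := by
      rw [mul_assoc]
      refine mul_le_mul_of_nonneg_left ?_ hK.le
      calc ∑ j, (u j).im ^ 2 ≤ ∑ _j : Fin d, s ^ 2 := by
            refine sum_le_sum fun j _ => ?_
            rw [← sq_abs]
            exact pow_le_pow_left₀ (abs_nonneg _) (hs j) 2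
        _ = d * s ^ 2 := by simp
    rw [hg]
    simp only
    rw [norm_mul, Complex.norm_exp, mul_comm]
    refine mul_le_mul (hHBN u hu) (Real.exp_le_exp.2 ?_) (Real.exp_nonneg _) hB
    have e : ((N : ℂ) * q u).re = N * (q u).re := by simp
    rw [e]
    exact mul_le_mul_of_nonneg_left (by linarith) hN0.le
  have hPR : ∀ X ∈ PR N a b t, tr X ∈ Metric.ball (0 : Fin d → ℂ) R ∧ ∀ j, |(tr X j).im| ≤ t := by
    intro X hX
    have him : ∀ j, |(tr X j).im| ≤ t := by
      intro j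
      have := (hX j).2
      simpa [htr] using this
    refine ⟨?_, him⟩
    rw [mem_ball_zero_iff, pi_norm_lt_iff hR]
    intro j
    have h1 := (hX j).1
    obtain ⟨⟨g1, g2⟩, ⟨g3, g4⟩, -, -⟩ := hen j
    have h2 : |(tr X j).re| ≤ δ + 1 / (2 * N) := by
      have e : (tr X j).re = (X j).re - τ j := by simp [htr]
      rw [e, abs_le]
      constructor
      · have := h1.1
        linarith
      · have := h1.2
        linarith
    have h3 := Complex.norm_le_abs_re_add_abs_im (tr X j)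
    have h4 := him j
    linarith
  have hPRU : PR N a b t ⊆ U := fun X hX => (hPR X hX).1
  have hA : ∀ X ∈ PR N a b t, ‖(g ∘ tr) X‖ ≤ B * Real.exp (N * (K * d * t ^ 2)) := by
    intro X hX
    obtain ⟨h1, h2⟩ := hPR X hX
    refine (hgb _ h1 t h2).trans (mul_le_mul_of_nonneg_left (Real.exp_le_exp.2 ?_) hB)
    refine mul_le_mul_of_nonneg_left ?_ hN0.le
    have : 0 ≤ κ * ∑ j, (tr X j).re ^ 2 := mul_nonneg hκ.le (sum_nonneg fun j _ => sq_nonneg _)
    linarith
  have hBf : ∀ X ∈ PR N a b t, (∃ i, (X i).re = lo N (a i) ∨ (X i).re = hi N (b i)) →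
      ‖(g ∘ tr) X‖ ≤ B * Real.exp (N * (-(κ * δ ^ 2 / 8))) := by
    intro X hX hi'
    obtain ⟨h1, h2⟩ := hPR X hX
    obtain ⟨i, hi''⟩ := hi'
    obtain ⟨⟨g1, g2⟩, ⟨g3, g4⟩, -, -⟩ := hen i
    have e : (tr X i).re = (X i).re - τ i := by simp [htr]
    have h3 : (δ / 2) ^ 2 ≤ (tr X i).re ^ 2 := by
      rw [← sq_abs (tr X i).re]
      refine pow_le_pow_left₀ (by positivity) ?_ 2
      rw [e, le_abs]
      rcases hi'' with h | h
      · right
        rw [h]
        simp only [ha]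
        linarith
      · left
        rw [h]
        simp only [hb]
        linarith
    have h4 : (tr X i).re ^ 2 ≤ ∑ j, (tr X j).re ^ 2 :=
      single_le_sum (f := fun j => (tr X j).re ^ 2) (fun j _ => sq_nonneg _) (mem_univ i)
    refine (hgb _ h1 t h2).trans (mul_le_mul_of_nonneg_left (Real.exp_le_exp.2 ?_) hB)
    refine mul_le_mul_of_nonneg_left ?_ hN0.le
    nlinarith
  have hmain := hM N hN1 a b (fun i => (hen i).2.2.1) (g ∘ tr) U t
    (B * Real.exp (N * (K * d * t ^ 2))) (B * Real.exp (N * (-(κ * δ ^ 2 / 8)))) (2 * δ + 2)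
    (fun _ => 0) hUo (ld_of hUo hfd) hPRU hN3 ht1 (fun i => by simpa using ht.le)
    (by linarith) (fun i => (hen i).2.2.2) hA hBf
  -- the two integrals
  set Tx : Set (Fin d → ℝ) := {x : Fin d → ℝ | ∀ j, |x j| ≤ δ} with hTx
  set Bx : Set (Fin d → ℝ) := Set.univ.pi (fun i => Set.Icc (lo N (a i)) (hi N (b i))) with hBx
  set Sx : Set (Fin d → ℝ) := (fun x : Fin d → ℝ => x + τ) ⁻¹' Bx with hSx
  set G : (Fin d → ℝ) → ℂ := fun x => g (fun j => (x j : ℂ)) with hG
  have hI1 : ∫ x in Bx, (g ∘ tr) (fun i => (x i : ℂ) + (0 : ℝ) * Complex.I) = ∫ x in Sx, G x := by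
    have h1 := (measurePreserving_add_right (volume : Measure (Fin d → ℝ)) τ).setIntegral_preimage_emb
      (measurableEmbedding_addRight τ)
      (fun x => (g ∘ tr) (fun i => (x i : ℂ) + (0 : ℝ) * Complex.I)) Bx
    rw [← h1]
    refine integral_congr_ae (Eventually.of_forall fun x => ?_)
    show g _ = g _
    congr 1
    funext j
    simp [htr]
  have hSW : Sx ⊆ W := by
    intro x hx
    rw [hWm]
    intro j
    have h1 : (x + τ) j ∈ Set.Icc (lo N (a j)) (hi N (b j)) := hx j (Set.mem_univ j)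
    obtain ⟨⟨g1, g2⟩, ⟨g3, g4⟩, -, -⟩ := hen j
    have h2 : 1 / (2 * (N : ℝ)) ≤ δ := by
      rw [div_le_iff₀ (by positivity)]
      nlinarith
    have h3 := h1.1
    have h4 := h1.2
    simp only [Pi.add_apply] at h3 h4
    rw [abs_le]
    constructor
    · linarith
    · linarith
  have hTW : Tx ⊆ W := by
    intro x hx
    rw [hWm]
    intro j
    have := hx j
    linarith
  have hWR : ∀ x ∈ W, (fun j => (x j : ℂ)) ∈ Metric.ball (0 : Fin d → ℂ) R := by
    intro x hx
    rw [mem_ball_zero_iff, pi_norm_lt_iff hR]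
    intro j
    have := (hWm x).1 hx j
    rw [Complex.norm_real, Real.norm_eq_abs]
    linarith
  have hGc : ContinuousOn G W := by
    refine hgd.continuousOn.comp (t := Metric.ball 0 R) ?_ hWR
    exact Continuous.continuousOn (by fun_prop)
  have hWc : IsCompact W := isCompact_closedBall _ _
  have hGi : IntegrableOn G W := hGc.integrableOn_compact hWc
  have hSm : MeasurableSet Sx := by
    refine (measurable_id.add_const τ) ?_
    exact MeasurableSet.univ_pi fun i => measurableSet_Icc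
  have hTm : MeasurableSet Tx := by
    have : Tx = ⋂ j, {x : Fin d → ℝ | |x j| ≤ δ} := by
      ext x
      simp [hTx]
    rw [this]
    exact MeasurableSet.iInter fun j => (isClosed_le (by fun_prop) continuous_const).measurableSet
  have hGb : ∀ x ∈ W, (∃ j, δ / 2 ≤ |x j|) → ‖G x‖ ≤ B * Real.exp (N * (-(κ * δ ^ 2 / 8))) := by
    intro x hx hj
    obtain ⟨i, hi'⟩ := hj
    have h1 := hgb _ (hWR x hx) 0 (fun j => by simp)
    refine h1.trans (mul_le_mul_of_nonneg_left (Real.exp_le_exp.2 ?_) hB)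
    refine mul_le_mul_of_nonneg_left ?_ hN0.le
    have h3 : (δ / 2) ^ 2 ≤ x i ^ 2 := by
      rw [← sq_abs (x i)]
      exact pow_le_pow_left₀ (by positivity) hi' 2
    have h4 : x i ^ 2 ≤ ∑ j, x j ^ 2 :=
      single_le_sum (f := fun j => x j ^ 2) (fun j _ => sq_nonneg _) (mem_univ i)
    simp only [Complex.ofReal_re]
    nlinarith
  have hdiff : ‖(∫ x in Sx, G x) - ∫ x in Tx, G x‖ ≤
      B * Real.exp (N * (-(κ * δ ^ 2 / 8))) * volume.real W := by
    have e1 : ∫ x in Sx, G x = ∫ x in W, Sx.indicator G x := by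
      rw [setIntegral_indicator hSm, Set.inter_eq_self_of_subset_right hSW]
    have e2 : ∫ x in Tx, G x = ∫ x in W, Tx.indicator G x := by
      rw [setIntegral_indicator hTm, Set.inter_eq_self_of_subset_right hTW]
    rw [e1, e2, ← integral_sub (hGi.indicator hSm) (hGi.indicator hTm)]
    refine norm_setIntegral_le_of_norm_le_const hWc.measure_lt_top fun x hx => ?_
    by_cases h1 : x ∈ Sx
    · by_cases h2 : x ∈ Tx
      · rw [Set.indicator_of_mem h1, Set.indicator_of_mem h2, sub_self, norm_zero]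
        positivity
      · rw [Set.indicator_of_mem h1, Set.indicator_of_notMem h2, sub_zero]
        refine hGb x hx ?_
        rw [hTx, Set.mem_ofPred_eq, not_forall] at h2
        obtain ⟨j, hj⟩ := h2
        exact ⟨j, by linarith [not_le.1 hj]⟩
    · by_cases h2 : x ∈ Tx
      · rw [Set.indicator_of_notMem h1, Set.indicator_of_mem h2, zero_sub, norm_neg]
        refine hGb x hx ?_
        have h3 : ∃ j, (x + τ) j ∉ Set.Icc (lo N (a j)) (hi N (b j)) := by
          by_contra h4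
          push Not at h4
          exact h1 fun j _ => h4 j
        obtain ⟨j, hj⟩ := h3
        obtain ⟨⟨g1, g2⟩, ⟨g3, g4⟩, -, -⟩ := hen j
        refine ⟨j, ?_⟩
        by_contra h5
        rw [not_le, abs_lt] at h5
        refine hj ⟨?_, ?_⟩
        · simp only [Pi.add_apply, ha]
          linarith
        · simp only [Pi.add_apply, hb]
          linarith
      · rw [Set.indicator_of_notMem h1, Set.indicator_of_notMem h2, sub_self, norm_zero]
        positivity
  -- the conclusion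
  have hex1 : Real.exp (-(2 * Real.pi * t * N)) * (B * Real.exp (N * (K * d * t ^ 2))) ≤
      B * Real.exp (-(c0 * N)) := by
    have e : Real.exp (-(2 * Real.pi * t * N)) * (B * Real.exp (N * (K * d * t ^ 2))) =
        B * Real.exp (-(2 * Real.pi * t * N) + N * (K * d * t ^ 2)) := by
      rw [Real.exp_add]
      ring
    rw [e]
    refine mul_le_mul_of_nonneg_left (Real.exp_le_exp.2 ?_) hB
    have h1 : c0 ≤ Real.pi * t := min_le_left _ _
    nlinarith
  have hex2 : B * Real.exp (N * (-(κ * δ ^ 2 / 8))) ≤ B * Real.exp (-(c0 * N)) := by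
    refine mul_le_mul_of_nonneg_left (Real.exp_le_exp.2 ?_) hB
    have h1 : c0 ≤ κ * δ ^ 2 / 8 := min_le_right _ _
    nlinarith
  have hfin : ‖∑ s ∈ Fintype.piFinset (fun i => Icc (a i) (b i)),
      g (fun j => (s j : ℂ) / N - τ j) - N ^ d * ∫ x in Tx, G x‖ ≤
      (C * (2 * δ + 2) ^ d * (2 * B) + B * volume.real W) * N ^ d * Real.exp (-(c0 * N)) := by
    have e : ∑ s ∈ Fintype.piFinset (fun i => Icc (a i) (b i)),
        g (fun j => (s j : ℂ) / N - τ j) - N ^ d * ∫ x in Tx, G x =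
        (∑ s ∈ Fintype.piFinset (fun i => Icc (a i) (b i)), (g ∘ tr) (fun i => (s i : ℂ) / N) -
          N ^ d * ∫ x in Bx, (g ∘ tr) (fun i => (x i : ℂ) + (0 : ℝ) * Complex.I)) +
        N ^ d * ((∫ x in Sx, G x) - ∫ x in Tx, G x) := by
      rw [hI1]
      show _ = (∑ s ∈ Fintype.piFinset (fun i => Icc (a i) (b i)),
        g (fun j => (s j : ℂ) / N - τ j) - N ^ d * ∫ x in Sx, G x) + _
      ring
    rw [e]
    refine (norm_add_le _ _).trans ?_
    have h1 : C * ((2 * δ + 2) * N) ^ d * (Real.exp (-(2 * Real.pi * t * N)) *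
        (B * Real.exp (N * (K * d * t ^ 2))) + B * Real.exp (N * (-(κ * δ ^ 2 / 8)))) ≤
        C * ((2 * δ + 2) * N) ^ d * (2 * (B * Real.exp (-(c0 * N)))) := by
      refine mul_le_mul_of_nonneg_left (by linarith) (by positivity)
    have h2 : ‖(N : ℂ) ^ d * ((∫ x in Sx, G x) - ∫ x in Tx, G x)‖ ≤
        N ^ d * (B * Real.exp (-(c0 * N)) * volume.real W) := by
      rw [norm_mul, norm_pow, Complex.norm_natCast]
      refine mul_le_mul_of_nonneg_left (hdiff.trans ?_) (by positivity)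
      exact mul_le_mul_of_nonneg_right hex2 measureReal_nonneg
    have h3 := (hmain.trans h1)
    refine (add_le_add h3 h2).trans (le_of_eq ?_)
    rw [mul_pow]
    ring
  exact hfin

end Pool.Agent.Q99.XF
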