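import Pool.Agent.Q99.XF.Fin
import Pool.Agent.Q99.XF.Rx1
import Pool.Agent.Q79.XF.BX
import Pool.Agent.Q123.XF.LV
import Pool.Agent.Q123.XF.QA
import Pool.Agent.Q190.XF.QB
import Pool.Agent.Q190.XF.HU
import Pool.Agent.Q252.XF.TI
import Pool.Agent.Q224.XF.RX2
import Pool.Agent.Q224.XF.RX

/-!
# Full asymptotic expansions for fully augmented links: assembly
-/

set_option autoImplicit false

namespace Pool.Agent.Q99.XF

open Finset Filter Topology MeasureTheory
open Pool.Agent.W715.VC (rt)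
open Pool.Agent.W709.QAT (Piece run)
open Pool.Agent.Q99.FAL hiding vc
open Pool.Agent.Q99.FP2 (wD)
open Pool.Agent.Q99.HX (Xp)

/-- **the Kashaev invariant of a fully augmented link to all orders** -/
theorem exF (D : List Pc) (hV : Val D 1) (hP : Pri D 1) (hD : D ≠ [])
    (hp : ∃ p, Pos D p) :
    ∃ y : ℕ → ℂ, y 0 ≠ 0 ∧ Xp (fun N : ℕ => run N (rt N) (D.flatMap els)
      (fun l => if l.map (fun x => (x : ℕ)) = [0] then 1 else 0)
        (if h : 0 < N then [⟨0, h⟩] else []) /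
      (N * √N * Complex.exp (N * ((sSup (fV '' AS D) : ℝ) +
        Real.pi * (-(wD D) / 4 : ℝ) * Complex.I)))) y :=
  vcx (nx Pool.Agent.Q123.XF.task_QA Pool.Agent.Q190.XF.task_QB Pool.Agent.Q123.XF.task_LV
    Pool.Agent.Q79.XF.task_BX Pool.Agent.Q190.XF.HU.task_HU Pool.Agent.Q252.XF.task_TI task_RX1
    Pool.Agent.Q224.XF.task_RX2 Pool.Agent.Q224.XF.task_RX) D hV hP hD hp

end Pool.Agent.Q99.XF
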