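import Pool.Agent.Q99.XF.Nx
import Pool.Agent.Q99.FP2.Al

/-!
# Full asymptotic expansions for fully augmented links: the Kashaev invariant
-/

set_option autoImplicit false

namespace Pool.Agent.Q99.XF

open Finset Filter Topology MeasureTheory
open Pool.Agent.W715.VC (rt)
open Pool.Agent.W709.QAT (Piece run)
open Pool.Agent.Q191.TW (cs cs_add cs_zero)
open Pool.Agent.Q99.FAL hiding vc
open Pool.Agent.Q99.FP2 (Phs phs_Th Th Fh wD j_ex)
open Pool.Agent.Q99.HX (Xp Xp.inv Xp.const Xp.mul Xp.congr')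

/-- a phase to all orders -/
lemma Phs.xp {f : ℕ → ℂ} {α : ℝ} (h : Phs f α) : ∃ u : ℕ → ℂ, u 0 ≠ 0 ∧
    Xp (fun N : ℕ => f N * Complex.exp (-(N * (Real.pi * α * Complex.I)))) u := by
  obtain ⟨β, γ, hf⟩ := h
  obtain ⟨u1, e1, g1⟩ := Xp.inv (Complex.I * Real.pi * γ)
  obtain ⟨u2, e2, g2⟩ := (Xp.const (Complex.exp (Complex.I * Real.pi * β))).mul g1
  refine ⟨u2, ?_, g2.congr' ?_⟩
  · rw [e2, e1]
    simp only [if_true, mul_one]
    exact Complex.exp_ne_zero _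
  · filter_upwards [eventually_gt_atTop 0] with N hN
    have hN0 : (N : ℂ) ≠ 0 := by exact_mod_cast hN.ne'
    rw [hf N hN]
    unfold cs
    rw [← Complex.exp_add, ← Complex.exp_add]
    congr 1
    push_cast
    field_simp
    ring

/-- **the Kashaev invariant of a fully augmented link to all orders**, in the notation of the
library; `hnx` is `nx` -/
theorem vcx (hnx : ∀ (c : ℕ) (X : Net c) (p : Fin c → Fin 6 → ℝ)
    (w : Fin c → ℝ), X.Good p → ∃ y : ℕ → ℂ, y 0 ≠ 0 ∧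
    Xp (fun N : ℕ => ((√N ^ nV p / √N ^ Module.finrank ℤ X.L *
      Real.exp (-(N * sSup (fV '' X.Ang))) : ℝ) : ℂ) * X.Z w N) y)
    (D : List Pc) (hV : Val D 1) (hP : Pri D 1) (hD : D ≠ []) (hp : ∃ p, Pos D p) :
    ∃ y : ℕ → ℂ, y 0 ≠ 0 ∧ Xp (fun N : ℕ => run N (rt N) (D.flatMap els)
      (fun l => if l.map (fun x => (x : ℕ)) = [0] then 1 else 0)
        (if h : 0 < N then [⟨0, h⟩] else []) /
      (N * √N * Complex.exp (N * ((sSup (fV '' AS D) : ℝ) +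
        Real.pi * (-(wD D) / 4 : ℝ) * Complex.I)))) y := by
  obtain ⟨p, hp⟩ := hp
  obtain ⟨X, hgood, hAng, hZ', hdim⟩ := Pool.Agent.Q224.FAL.task_GD
    Pool.Agent.Q237.FAL.task_SO Pool.Agent.Q237.FAL.task_OZ
    Pool.Agent.Q237.FAL.task_SUR Pool.Agent.Q237.FAL.task_NC Pool.Agent.Q299.FAL.task_SP
    Pool.Agent.Q299.FAL.task_DIM Pool.Agent.Q299.FAL.task_CN Pool.Agent.Q149.FAL.task_UNR
    D hV hP hD p hp
  obtain ⟨z, hz, hlim⟩ := hnx D.length X p (ws D) hgood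
  have hph := phs_Th D 1 hV
  have hF : -(wD D) / 4 - Fh 1 = -(wD D) / 4 := by
    unfold Fh
    norm_num
  rw [hF] at hph
  obtain ⟨z', hz', hlim'⟩ := Phs.xp hph
  obtain ⟨u, hu, hX⟩ := hlim'.mul hlim
  refine ⟨u, by rw [hu]; exact mul_ne_zero hz' hz, hX.congr' ?_⟩
  filter_upwards [eventually_gt_atTop 0] with N hN
  rw [Pool.Agent.Q224.FAL.fun_zero hN, dif_pos hN, j_ex N hN D hV, hZ' N hN, hAng]
  have hid := Pool.Agent.Q224.FAL.pow_id hN hdim
  have hNr : (0 : ℝ) < N := by exact_mod_cast hN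
  have hs : (0 : ℝ) < √N := Real.sqrt_pos.mpr hNr
  have hNc : (N : ℂ) ≠ 0 := by exact_mod_cast hN.ne'
  have hsc : ((√N : ℝ) : ℂ) ≠ 0 := by exact_mod_cast hs.ne'
  rw [← hid]
  have e : Complex.exp (N * ((sSup (fV '' AS D) : ℝ) +
        Real.pi * (-(wD D) / 4 : ℝ) * Complex.I)) =
      Complex.exp (N * (sSup (fV '' AS D) : ℝ)) *
        Complex.exp (N * (Real.pi * (-(wD D) / 4 : ℝ) * Complex.I)) := by
    rw [← Complex.exp_add]
    congr 1
    ring
  rw [e, Complex.exp_neg]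
  have e1 := Complex.exp_ne_zero (N * (Real.pi * (-(wD D) / 4 : ℝ) * Complex.I))
  have e2 := Complex.exp_ne_zero (N * (sSup (fV '' AS D) : ℝ))
  push_cast at e1 e2 ⊢
  rw [Complex.exp_neg]
  field_simp

end Pool.Agent.Q99.XF
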