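import Pool.Agent.Q99.HX.Fin
import Pool.Agent.Q99.HX.Fin2
import Pool.Agent.W67.AX.UX2

/-!
# Logarithms and ratios of sequences with full asymptotic expansions
-/

set_option autoImplicit false

namespace Pool.Agent.Q99.XF

open Finset Filter Topology
open Pool.Agent.W719.AX (UX cv)
open Pool.Agent.Q99.HX (Xp Xp.ux Xp.congr')
open Pool.Agent.W67.AX (P P_zero uxcomp logT uxpow)

lemma Xp.add' {a b y z : ℕ → ℂ} (ha : Xp a y) (hb : Xp b z) :
    Xp (fun N => a N + b N) (fun k => y k + z k) :=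
  Xp.ux.2 (Pool.Agent.W67.AX.uxadd (Xp.ux.1 ha) (Xp.ux.1 hb))

lemma Xp.smul' {a y : ℕ → ℂ} (c : ℂ) (ha : Xp a y) : Xp (fun N => c * a N) (fun k => c * y k) :=
  Xp.ux.2 (Pool.Agent.W67.AX.uxcmul (fun _ => c) ‖c‖ (fun _ _ => le_rfl) (Xp.ux.1 ha))

/-- the sequence `1 / N` -/
lemma Xp.oneDiv : Xp (fun N => 1 / (N : ℂ)) (fun k => if k = 1 then 1 else 0) := by
  intro K
  refine ⟨1, ?_⟩
  filter_upwards [eventually_ge_atTop 1] with N hN
  have hN0 : (1 : ℝ) ≤ N := by exact_mod_cast hN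
  rcases Nat.lt_or_ge K 2 with hK | hK
  · have e : ∑ k ∈ range K, (if k = 1 then (1 : ℂ) else 0) / (N : ℂ) ^ k = 0 := by
      refine sum_eq_zero fun k hk => ?_
      rw [mem_range] at hk
      rw [if_neg (by omega), zero_div]
    rw [e, sub_zero, norm_div, Complex.norm_natCast, norm_one]
    refine div_le_div_of_nonneg_left zero_le_one (by positivity) ?_
    calc (N : ℝ) ^ K ≤ (N : ℝ) ^ 1 := pow_le_pow_right₀ hN0 (by omega)
      _ = N := pow_one _
  · have e : ∑ k ∈ range K, (if k = 1 then (1 : ℂ) else 0) / (N : ℂ) ^ k = 1 / N := by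
      rw [sum_eq_single 1]
      · simp
      · intro b _ hb
        simp [hb]
      · intro h
        exact absurd (mem_range.2 hK) h
    rw [e, sub_self, norm_zero]
    positivity

/-- composition with a function with a Taylor expansion at `0` -/
lemma Xp.comp {a y : ℕ → ℂ} (ha : Xp a y) (h0 : y 0 = 0) (f : ℂ → ℂ) (α : ℕ → ℂ)
    (hf : ∀ K : ℕ, ∃ C r : ℝ, 0 < r ∧ ∀ x : ℂ, ‖x‖ ≤ r →
      ‖f x - ∑ j ∈ range K, α j * x ^ j‖ ≤ C * ‖x‖ ^ K) :
    ∃ u : ℕ → ℂ, u 0 = α 0 ∧ u 1 = α 1 * y 1 ∧ Xp (fun N => f (a N)) u := by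
  have h := uxcomp Pool.Agent.W303.AX.uxmul (Xp.ux.1 ha) (fun _ => h0) f α hf
  refine ⟨fun k => ∑ j ∈ range (k + 1), α j * P (fun k _ => y k) j k (), ?_, ?_, Xp.ux.2 h⟩
  · simp [P]
  · simp only [sum_range_succ, sum_range_zero, zero_add]
    simp [P, cv, sum_range_succ]

/-- the shift -/
lemma Xp.shift {a y : ℕ → ℂ} (ha : Xp a y) (d : ℕ) :
    ∃ u : ℕ → ℂ, u 0 = y 0 ∧ u 1 = y 1 ∧ Xp (fun N => a (N + d)) u := by
  -- the sequence `1 / (N + d)`
  obtain ⟨w, hw0, hw1, hw⟩ : ∃ w : ℕ → ℂ, w 0 = 0 ∧ w 1 = 1 ∧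
      Xp (fun N => 1 / ((N + d : ℕ) : ℂ)) w := by
    obtain ⟨u1, e0, e1, g1⟩ := Xp.comp (Xp.oneDiv) (by simp) (fun x => x / (1 + d * x))
      (fun j => if j = 0 then 0 else (-(d : ℂ)) ^ (j - 1)) (by
        intro K
        refine ⟨2 * ((d : ℝ) + 1) ^ K, 1 / (2 * ((d : ℝ) + 1)), by positivity, fun x hx => ?_⟩
        have hd : ‖(d : ℂ) * x‖ ≤ 1 / 2 := by
          rw [norm_mul, Complex.norm_natCast]
          calc (d : ℝ) * ‖x‖ ≤ (d : ℝ) * (1 / (2 * ((d : ℝ) + 1))) := by gcongr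
            _ = (1 / 2) * ((d : ℝ) / ((d : ℝ) + 1)) := by field_simp
            _ ≤ 1 / 2 * 1 := by
              refine mul_le_mul_of_nonneg_left ?_ (by norm_num)
              rw [div_le_one (by positivity)]
              linarith
            _ = 1 / 2 := mul_one _
        have hne : 1 + (d : ℂ) * x ≠ 0 := by
          intro h
          have h2 : (d : ℂ) * x = -1 := by linear_combination h
          rw [h2, norm_neg, norm_one] at hd
          norm_num at hd
        have hinv : ‖(1 + (d : ℂ) * x)⁻¹‖ ≤ 2 := by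
          rw [norm_inv]
          have h3 : 1 / 2 ≤ ‖1 + (d : ℂ) * x‖ := by
            have := norm_sub_norm_le (1 : ℂ) (-((d : ℂ) * x))
            rw [norm_neg, norm_one, sub_neg_eq_add] at this
            linarith
          calc ‖1 + (d : ℂ) * x‖⁻¹ ≤ (1 / 2 : ℝ)⁻¹ := inv_anti₀ (by norm_num) h3
            _ = 2 := by norm_num
        rcases K with _ | K
        · simp only [range_zero, sum_empty, sub_zero, pow_zero, mul_one]
          rw [div_eq_mul_inv, norm_mul]
          have hx1 : ‖x‖ ≤ 1 := hx.trans (by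
            rw [div_le_one (by positivity)]
            have : (0 : ℝ) ≤ d := Nat.cast_nonneg d
            linarith)
          nlinarith [norm_nonneg x, norm_nonneg (1 + (d : ℂ) * x)⁻¹]
        · have e2 : ∑ j ∈ range (K + 1), (if j = 0 then (0 : ℂ) else (-(d : ℂ)) ^ (j - 1)) * x ^ j =
              x * ∑ j ∈ range K, (-((d : ℂ) * x)) ^ j := by
            rw [sum_range_succ']
            simp only [Nat.add_eq_zero_iff, one_ne_zero, and_false, if_false, Nat.add_sub_cancel,
              if_true, zero_mul, add_zero]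
            rw [mul_sum]
            refine sum_congr rfl fun j _ => ?_
            rw [neg_mul_eq_neg_mul, mul_pow]
            ring
          have e3 : (1 + (d : ℂ) * x) * ∑ j ∈ range K, (-((d : ℂ) * x)) ^ j =
              1 - (-((d : ℂ) * x)) ^ K := by
            have := mul_neg_geom_sum (-((d : ℂ) * x)) K
            rw [← this]
            ring
          have e4 : x / (1 + d * x) - ∑ j ∈ range (K + 1),
              (if j = 0 then (0 : ℂ) else (-(d : ℂ)) ^ (j - 1)) * x ^ j =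
              x * (-((d : ℂ) * x)) ^ K * (1 + (d : ℂ) * x)⁻¹ := by
            rw [e2]
            have e5 : ∑ j ∈ range K, (-((d : ℂ) * x)) ^ j =
                (1 - (-((d : ℂ) * x)) ^ K) * (1 + (d : ℂ) * x)⁻¹ := by
              rw [← e3]
              field_simp
            rw [e5]
            field_simp
            ring
          rw [e4, norm_mul, norm_mul, norm_pow, norm_neg, norm_mul, Complex.norm_natCast]
          calc ‖x‖ * ((d : ℝ) * ‖x‖) ^ K * ‖(1 + (d : ℂ) * x)⁻¹‖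
              ≤ ‖x‖ * ((d : ℝ) * ‖x‖) ^ K * 2 := by gcongr
            _ ≤ ‖x‖ * (((d : ℝ) + 1) * ‖x‖) ^ K * 2 := by
              gcongr
              linarith
            _ = 2 * ((d : ℝ) + 1) ^ K * ‖x‖ ^ (K + 1) := by rw [mul_pow, pow_succ]; ring
            _ ≤ 2 * ((d : ℝ) + 1) ^ (K + 1) * ‖x‖ ^ (K + 1) := by
              gcongr
              · linarith [show (0 : ℝ) ≤ d from Nat.cast_nonneg d]
              · omega)
    refine ⟨u1, by simpa using e0, by simpa using e1, g1.congr' ?_⟩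
    filter_upwards [eventually_ge_atTop 1] with N hN
    have hN0 : (N : ℂ) ≠ 0 := by
      have : N ≠ 0 := by omega
      exact_mod_cast this
    have hNd : ((N : ℂ) + d) ≠ 0 := by
      have : N + d ≠ 0 := by omega
      exact_mod_cast this
    push_cast
    field_simp
  have hpw := uxpow Pool.Agent.W303.AX.uxmul (Xp.ux.1 hw)
  refine ⟨fun k => ∑ j ∈ range (k + 1), y j * P (fun k _ => w k) j k (), ?_, ?_, ?_⟩
  · simp [P]
  · simp only [sum_range_succ, sum_range_zero, zero_add]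
    simp [P, cv, sum_range_succ, hw1]
  · intro K
    obtain ⟨C1, h1⟩ := ha K
    choose D hD using fun j => hpw j K
    have hD' : ∀ᶠ N : ℕ in atTop, ∀ j ∈ range K,
        ‖(1 / ((N + d : ℕ) : ℂ)) ^ j - ∑ k ∈ range K, P (fun k _ => w k) j k () / (N : ℂ) ^ k‖ ≤
          D j / (N : ℝ) ^ K := by
      rw [Filter.eventually_all_finset]
      intro j _
      exact (hD j).mono fun N hN => hN () (Set.mem_univ _)
    refine ⟨|C1| + ∑ j ∈ range K, ‖y j‖ * D j, ?_⟩
    filter_upwards [(tendsto_add_atTop_nat d).eventually h1, hD', eventually_gt_atTop 0] with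
      N h2 h3 hN
    have hNpos : (0 : ℝ) < N := by exact_mod_cast hN
    have hT : ‖a (N + d) - ∑ j ∈ range K, y j * (1 / ((N + d : ℕ) : ℂ)) ^ j‖ ≤
        |C1| / (N : ℝ) ^ K := by
      have e : ∑ j ∈ range K, y j * (1 / ((N + d : ℕ) : ℂ)) ^ j =
          ∑ j ∈ range K, y j / ((N + d : ℕ) : ℂ) ^ j :=
        sum_congr rfl fun j _ => by rw [one_div, inv_pow, ← div_eq_mul_inv]
      rw [e]
      refine h2.trans ?_
      have h4 : (N : ℝ) ^ K ≤ ((N + d : ℕ) : ℝ) ^ K := by
        gcongr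
        omega
      exact div_le_div₀ (abs_nonneg _) (le_abs_self _) (by positivity) h4
    have hz : ∀ j k, k < j → P (fun (k : ℕ) (_ : Unit) => w k) j k () = 0 :=
      P_zero (fun k _ => w k) () hw0
    have hsum : ∑ k ∈ range K, (∑ j ∈ range (k + 1), y j * P (fun k _ => w k) j k ()) /
        (N : ℂ) ^ k =
        ∑ j ∈ range K, y j * ∑ k ∈ range K, P (fun k _ => w k) j k () / (N : ℂ) ^ k := by
      have e1 : ∀ k ∈ range K, (∑ j ∈ range (k + 1), y j * P (fun k _ => w k) j k ()) /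
          (N : ℂ) ^ k = ∑ j ∈ range K, y j * (P (fun k _ => w k) j k () / (N : ℂ) ^ k) := by
        intro k hk
        rw [mem_range] at hk
        rw [sum_div]
        have e2 : ∑ j ∈ range (k + 1), y j * P (fun k _ => w k) j k () / (N : ℂ) ^ k =
            ∑ j ∈ range (k + 1), y j * (P (fun k _ => w k) j k () / (N : ℂ) ^ k) :=
          sum_congr rfl fun j _ => by rw [mul_div_assoc]
        rw [e2]
        refine sum_subset (range_mono (by omega)) ?_
        intro j _ hj
        rw [mem_range] at hj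
        rw [hz j k (by omega), zero_div, mul_zero]
      rw [sum_congr rfl e1, sum_comm]
      exact sum_congr rfl fun j _ => by rw [mul_sum]
    have e3 : a (N + d) - ∑ k ∈ range K, (∑ j ∈ range (k + 1), y j *
        P (fun k _ => w k) j k ()) / (N : ℂ) ^ k =
        (a (N + d) - ∑ j ∈ range K, y j * (1 / ((N + d : ℕ) : ℂ)) ^ j) +
          ∑ j ∈ range K, y j * ((1 / ((N + d : ℕ) : ℂ)) ^ j -
            ∑ k ∈ range K, P (fun k _ => w k) j k () / (N : ℂ) ^ k) := by
      rw [hsum]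
      simp only [mul_sub, sum_sub_distrib]
      ring
    rw [e3, add_div, sum_div]
    refine (norm_add_le _ _).trans (add_le_add hT ?_)
    refine (norm_sum_le _ _).trans (sum_le_sum ?_)
    intro j hj
    rw [norm_mul, mul_div_assoc]
    exact mul_le_mul_of_nonneg_left (h3 j hj) (norm_nonneg _)

/-- the logarithm of a sequence with the limit `1` -/
lemma Xp.log {b y : ℕ → ℂ} (h : Xp b y) (hy : y 0 = 1) :
    ∃ u : ℕ → ℂ, u 0 = 0 ∧ u 1 = y 1 ∧ Xp (fun N => Complex.log (b N)) u := by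
  have h1 : Xp (fun N => b N + -1) (fun k => y k + if k = 0 then -1 else 0) :=
    Xp.add' h (Pool.Agent.Q99.HX.Xp.const (-1))
  obtain ⟨u, e0, e1, g⟩ := Xp.comp h1 (by simp [hy]) (fun x => Complex.log (1 + x))
    (fun j => (-1) ^ (j + 1) / (j : ℂ)) logT
  refine ⟨u, by simpa using e0, by simpa using e1, g.congr' (Eventually.of_forall fun N => ?_)⟩
  show Complex.log (1 + (b N + -1)) = Complex.log (b N)
  congr 1
  ring

/-- **the logarithm to all orders** -/
theorem xp_logs_all (a : ℕ → ℂ) (v : ℂ) (y : ℕ → ℂ) (hy : y 0 ≠ 0)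
    (h : Xp (fun N : ℕ => a N / (N * √N * Complex.exp (N * v))) y) :
    ∃ l u : ℕ → ℂ, (∀ᶠ N : ℕ in atTop, Complex.exp (l N) = a N) ∧
      Xp (fun N => l N - (N * v + 3 / 2 * Real.log N)) u ∧
      ∀ N, l N = N * v + 3 / 2 * Real.log N + (l N - (N * v + 3 / 2 * Real.log N)) := by
  set b : ℕ → ℂ := fun N => a N / (N * √N * Complex.exp (N * v)) with hb
  have h1 := Xp.smul' (y 0)⁻¹ h
  obtain ⟨u, e0, e1, g⟩ := Xp.log h1 (inv_mul_cancel₀ hy)
  have g2 := Xp.add' (Pool.Agent.Q99.HX.Xp.const (Complex.log (y 0))) g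
  refine ⟨fun N => N * v + 3 / 2 * Real.log N + (Complex.log (y 0) + Complex.log ((y 0)⁻¹ * b N)),
    _, ?_, g2.congr' (Eventually.of_forall fun N => by ring), fun N => by ring⟩
  have hlim : Tendsto b atTop (𝓝 (y 0)) := by
    obtain ⟨C, hC⟩ := h 1
    rw [tendsto_iff_norm_sub_tendsto_zero]
    refine squeeze_zero' (Eventually.of_forall fun N => norm_nonneg _) ?_
      (tendsto_const_div_atTop_nhds_zero_nat C)
    filter_upwards [hC] with N hN
    simpa using hN
  filter_upwards [hlim.eventually_ne hy, eventually_gt_atTop 0] with N hN hN0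
  have hNr : (0 : ℝ) < N := by exact_mod_cast hN0
  have hNc : (N : ℂ) ≠ 0 := by exact_mod_cast hN0.ne'
  have hs : ((√N : ℝ) : ℂ) ≠ 0 := by exact_mod_cast (Real.sqrt_pos.2 hNr).ne'
  have e2 : Complex.exp (3 / 2 * Real.log N) = N * √N := by
    have e3 : (3 / 2 * Real.log N : ℂ) = ((Real.log N + Real.log (√N) : ℝ) : ℂ) := by
      rw [Real.log_sqrt hNr.le]
      push_cast
      ring
    rw [e3, ← Complex.ofReal_exp, Real.exp_add, Real.exp_log hNr,
      Real.exp_log (Real.sqrt_pos.2 hNr)]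
    push_cast
    rfl
  rw [Complex.exp_add, Complex.exp_add, Complex.exp_add, Complex.exp_log hy,
    Complex.exp_log (mul_ne_zero (inv_ne_zero hy) hN), e2]
  have e4 := Complex.exp_ne_zero (N * v)
  rw [hb]
  field_simp

/-- **ratios to all orders** -/
theorem xp_ratio_all (a : ℕ → ℂ) (v : ℂ) (y : ℕ → ℂ) (hy : y 0 ≠ 0)
    (h : Xp (fun N : ℕ => a N / (N * √N * Complex.exp (N * v))) y) :
    (∀ᶠ N : ℕ in atTop, a N ≠ 0) ∧ ∃ (u : ℕ → ℂ) (k : ℕ → ℤ), u 0 = 2 * Real.pi * v ∧
      u 1 = 3 * Real.pi ∧ Xp (fun N : ℕ => Real.pi * Complex.log (a (N + 2) / a N) +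
        k N * (Real.pi ^ 2 * Complex.I)) u := by
  obtain ⟨l, z, h1, h2, -⟩ := xp_logs_all a v y hy h
  have h0 : ∀ᶠ N : ℕ in atTop, a N ≠ 0 := by
    filter_upwards [h1] with N hN
    rw [← hN]
    exact Complex.exp_ne_zero _
  refine ⟨h0, ?_⟩
  -- the difference of the logarithms
  obtain ⟨z2, e0, e1, g2⟩ := Xp.shift h2 2
  obtain ⟨w, f0, f1, g3⟩ := Xp.comp (Xp.smul' 2 Xp.oneDiv) (by simp)
    (fun x => Complex.log (1 + x)) (fun j => (-1) ^ (j + 1) / (j : ℂ)) logT
  have g4 := Xp.smul' (Real.pi : ℂ) (Xp.add' (Pool.Agent.Q99.HX.Xp.const (2 * v))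
    (Xp.add' (Xp.smul' (3 / 2) g3) (Xp.add' g2 (Xp.smul' (-1) h2))))
  have h1' := (tendsto_add_atTop_nat 2).eventually h1
  have hev : ∀ᶠ N : ℕ in atTop, ∃ k : ℤ,
      Complex.log (a (N + 2) / a N) + k * (2 * Real.pi * Complex.I) = l (N + 2) - l N := by
    filter_upwards [h1, h1', h0, (tendsto_add_atTop_nat 2).eventually h0] with N q1 q2 q3 q4
    have e : Complex.exp (l (N + 2) - l N) = Complex.exp (Complex.log (a (N + 2) / a N)) := by
      rw [Complex.exp_sub, q1, q2, Complex.exp_log (div_ne_zero q4 q3)]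
    obtain ⟨k, hk⟩ := Complex.exp_eq_exp_iff_exists_int.1 e
    exact ⟨k, hk.symm⟩
  obtain ⟨k, hk⟩ := Filter.skolem.1 hev
  refine ⟨_, fun N => 2 * k N, ?_, ?_, g4.congr' ?_⟩
  · simp only [if_true]
    rw [e0, f0]
    simp
    ring
  · simp only [one_ne_zero, if_false]
    rw [e1, f1]
    simp
    ring
  · filter_upwards [hk, eventually_gt_atTop 0] with N hN hN0
    have hNr : (0 : ℝ) < N := by exact_mod_cast hN0
    have hNc : (N : ℂ) ≠ 0 := by exact_mod_cast hN0.ne'
    have e5 : Complex.log (1 + 2 * (1 / (N : ℂ))) = Real.log ((N + 2 : ℕ) : ℝ) - Real.log N := by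
      have e6 : (1 : ℂ) + 2 * (1 / (N : ℂ)) = (((N + 2 : ℕ) : ℝ) / N : ℝ) := by
        push_cast
        field_simp
      rw [e6, ← Complex.ofReal_log (by positivity), Real.log_div (by positivity) hNr.ne']
      push_cast
      ring
    have e7 : (Real.pi : ℂ) * Complex.log (a (N + 2) / a N) +
        ((2 * k N : ℤ) : ℂ) * (Real.pi ^ 2 * Complex.I) = Real.pi * (l (N + 2) - l N) := by
      rw [← hN]
      push_cast
      ring
    rw [e7, e5]
    push_cast
    ring

end Pool.Agent.Q99.XF
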