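import Pool.Agent.Q99.XF.Stm
import Pool.Agent.Q99.FAL.Asm
import Pool.Agent.Q99.HX.Fin2

/-!
# Full asymptotic expansions for fully augmented links: the state sum of a net
-/

set_option autoImplicit false

namespace Pool.Agent.Q99.XF

open Finset Filter Topology MeasureTheory
open Pool.Agent.W719.BS (D LL)
open Pool.Agent.Q99.FAL hiding vc
open Pool.Agent.Q99.KN (LC bb Gm St ct S_LC S_GAM)
open Pool.Agent.Q99.HT
open Pool.Agent.Q99.HX (Xp UA Sd S_GX S_UA S_FLAP)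
open Pool.Agent.Q299.FAL (vc XL XL_apply)

lemma Xp.lim {a y : ℕ → ℂ} (h : Xp a y) : Tendsto a atTop (𝓝 (y 0)) := by
  obtain ⟨C, hC⟩ := h 1
  rw [tendsto_iff_norm_sub_tendsto_zero]
  have h1 : Tendsto (fun N : ℕ => C / (N : ℝ)) atTop (𝓝 0) :=
    tendsto_const_div_atTop_nhds_zero_nat C
  refine squeeze_zero' (Eventually.of_forall fun N => norm_nonneg _) ?_ h1
  filter_upwards [hC] with N hN
  simpa using hN

lemma Xp.cg {a b y : ℕ → ℂ} (h : Xp a y) (e : ∀ N : ℕ, a N = b N) : Xp b y := by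
  have : a = b := funext e
  rwa [← this]

/-- the Gaussian bound of the terms -/
lemma gbound {c : ℕ} {X : Net c} {p a : Fin c → Fin 6 → ℝ} {d : ℕ}
    {E : Fin d → Fin c → Fin 6 → ℤ} {τ : Fin d → ℝ} (hB : Bs X p a E τ) (w : Fin c → ℝ) :
    ∃ κ C : ℝ, 0 < κ ∧ ∀ᶠ N : ℕ in atTop, ∀ t : Fin d → ℤ,
      ‖(((√N ^ nV p * Real.exp (-(N * fV a)) : ℝ) : ℂ)) * tN w N (vc X E N t)‖ ≤
        C * Real.exp (-κ * ((∑ j, ((t j : ℝ) - N * τ j) ^ 2) / N)) := by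
  obtain ⟨hp, htop, h1, -, h3, hτ⟩ := hB
  obtain ⟨C0, κ0, hκ0, hNB'⟩ := Pool.Agent.Q280.FAL.task_NB task_T1 Pool.Agent.Q299.FAL.task_CR
    c X p a w hp htop
  obtain ⟨K, hK, hlow⟩ := Pool.Agent.Q299.FAL.lower E h3
  obtain ⟨M, hM⟩ : ∃ M : ℝ, M = ∑ b, ∑ i, ((X.a0 b i : ℤ) : ℝ) ^ 2 := ⟨_, rfl⟩
  have hM0 : 0 ≤ M := by
    rw [hM]
    exact sum_nonneg fun b _ => sum_nonneg fun i _ => sq_nonneg _
  have hab : ∀ b i, a b i = X.a0 b i + XL E τ b i := by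
    intro b i
    have h5 := congrFun (congrFun hτ b) i
    rw [← XL_apply] at h5
    have h6 : a b i - X.a0 b i = XL E τ b i := h5
    linarith
  have hvc : ∀ (N : ℕ) (t : Fin d → ℤ) (b : Fin c) (i : Fin 6),
      ((vc X E N t b i : ℤ) : ℝ) - N * a b i =
        XL E (fun j => (t j : ℝ) - N * τ j) b i - X.a0 b i := by
    intro N t b i
    rw [hab]
    have e1 : ((vc X E N t b i : ℤ) : ℝ) = ((N : ℝ) - 1) * X.a0 b i + ∑ j, (t j : ℝ) * (E j b i : ℝ) := by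
      unfold vc
      simp only [Pi.add_apply, Pi.smul_apply, Finset.sum_apply, smul_eq_mul]
      push_cast
      rfl
    have e2 : ∀ y : Fin d → ℝ, XL E y b i = ∑ j, y j * (E j b i : ℝ) := by
      intro y
      rw [XL_apply]
      simp only [Finset.sum_apply, Pi.smul_apply, smul_eq_mul, toR]
    rw [e1, e2, e2]
    simp only [sub_mul, sum_sub_distrib]
    rw [mul_add, mul_sum]
    have e3 : ∀ j, (N : ℝ) * (τ j * (E j b i : ℝ)) = N * τ j * (E j b i : ℝ) := fun j => by ring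
    simp only [e3]
    ring
  have hLmem : ∀ (N : ℕ) (t : Fin d → ℤ),
      vc X E N t - ((N : ℤ) - 1) • X.a0 ∈ X.L := by
    intro N t
    unfold vc
    rw [add_sub_cancel_left]
    exact h1 t
  refine ⟨κ0 / (2 * K), |C0| * Real.exp (κ0 * M), by positivity, ?_⟩
  filter_upwards [eventually_ge_atTop 1] with N hN t
  have hN0 : (0 : ℝ) < N := by exact_mod_cast hN
  have hN1 : (1 : ℝ) ≤ N := by exact_mod_cast hN
  have h5 := hNB' N hN (vc X E N t) (hLmem N t)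
  refine h5.trans ?_
  have h6 : ∑ j, ((t j : ℝ) - N * τ j) ^ 2 ≤ K * (2 * (∑ b, ∑ i, (((vc X E N t b i : ℤ) : ℝ) - N * a b i) ^ 2 + M)) := by
    refine (hlow _).trans (mul_le_mul_of_nonneg_left ?_ hK.le)
    rw [hM, ← sum_add_distrib, mul_sum]
    refine sum_le_sum fun b _ => ?_
    rw [← sum_add_distrib, mul_sum]
    refine sum_le_sum fun i _ => ?_
    rw [hvc]
    nlinarith [sq_nonneg (XL E (fun j => (t j : ℝ) - N * τ j) b i - 2 * X.a0 b i)]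
  have h7 : -κ0 * ((∑ b, ∑ i, (((vc X E N t b i : ℤ) : ℝ) - N * a b i) ^ 2) / N) ≤
      κ0 * M + -(κ0 / (2 * K)) * ((∑ j, ((t j : ℝ) - N * τ j) ^ 2) / N) := by
    have h8 : (∑ j, ((t j : ℝ) - N * τ j) ^ 2) / (2 * K) - M ≤
        ∑ b, ∑ i, (((vc X E N t b i : ℤ) : ℝ) - N * a b i) ^ 2 := by
      rw [sub_le_iff_le_add, div_le_iff₀ (by positivity)]
      linarith
    have h9 : (∑ j, ((t j : ℝ) - N * τ j) ^ 2) / (2 * K) / N - M ≤
        (∑ b, ∑ i, (((vc X E N t b i : ℤ) : ℝ) - N * a b i) ^ 2) / N := by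
      rw [le_div_iff₀ hN0, sub_mul, div_mul_cancel₀ _ hN0.ne']
      nlinarith
    have h10 := mul_le_mul_of_nonneg_left h9 hκ0.le
    have e : -(κ0 / (2 * K)) * ((∑ j, ((t j : ℝ) - N * τ j) ^ 2) / N) =
        -(κ0 * ((∑ j, ((t j : ℝ) - N * τ j) ^ 2) / (2 * K) / N)) := by
      field_simp
    rw [e]
    linarith
  calc C0 * Real.exp (-κ0 * ((∑ b, ∑ i, (((vc X E N t b i : ℤ) : ℝ) - N * a b i) ^ 2) / N))
      ≤ |C0| * Real.exp (-κ0 * ((∑ b, ∑ i, (((vc X E N t b i : ℤ) : ℝ) - N * a b i) ^ 2) / N)) :=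
        mul_le_mul_of_nonneg_right (le_abs_self _) (Real.exp_pos _).le
    _ ≤ |C0| * Real.exp (κ0 * M + -(κ0 / (2 * K)) * ((∑ j, ((t j : ℝ) - N * τ j) ^ 2) / N)) :=
        mul_le_mul_of_nonneg_left (Real.exp_le_exp.2 h7) (abs_nonneg _)
    _ = _ := by rw [Real.exp_add, mul_assoc]

/-- **the state sum of a net to all orders** -/
theorem nx (hQA : S_QA) (hQB : S_QB) (hLV : S_LV) (hBX : S_BX) (hHU : S_HU) (hTI : S_TI)
    (h1 : S_RX1) (h2 : S_RX2) (hRX : S_RX) (c : ℕ) (X : Net c) (p : Fin c → Fin 6 → ℝ)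
    (w : Fin c → ℝ) (hp : X.Good p) : ∃ y : ℕ → ℂ, y 0 ≠ 0 ∧
    Xp (fun N : ℕ => ((√N ^ nV p / √N ^ Module.finrank ℤ X.L *
      Real.exp (-(N * sSup (fV '' X.Ang))) : ℝ) : ℂ) * X.Z w N) y := by
  obtain ⟨a, ha, hz, hmax⟩ := task_MAX c X p hp
  obtain ⟨E, g1, g2, g3, g4⟩ := Pool.Agent.Q299.FAL.task_LB c X
  obtain ⟨τ, hτ⟩ := g4 _ ha.1
  have hB : Bs X p a E τ := ⟨hp, ⟨ha, hz, hmax⟩, g1, g2, g3, hτ⟩
  obtain ⟨κ, C, hκ, hgb⟩ := gbound hB w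
  obtain ⟨RA, hRA, qA, q0, qd⟩ := hQA c _ X p a E τ w hB
  obtain ⟨RB, κB, KB, hRB, hκB, hKB, qB⟩ := hQB hLV c _ X p a E τ w hB
  obtain ⟨RU, hRU, hU⟩ := hHU hBX c _ X p a E τ w hB
  obtain ⟨RT, hRT, hT⟩ := hTI c _ X p a E τ w hB
  obtain ⟨R, hR, r1, r2, r3, r4⟩ : ∃ R : ℝ, 0 < R ∧ R ≤ RA ∧ R ≤ RB ∧ R ≤ RU ∧ R ≤ RT :=
    ⟨min (min RA RB) (min RU RT), by positivity,
      (min_le_left _ _).trans (min_le_left _ _), (min_le_left _ _).trans (min_le_right _ _),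
      (min_le_right _ _).trans (min_le_left _ _), (min_le_right _ _).trans (min_le_right _ _)⟩
  obtain ⟨hU1, hU2⟩ := hU R hR r3
  obtain ⟨y, hy⟩ := hRX h1 h2 _ τ κ C R κB KB hκ hR hκB hKB
    (fun N t => (((√N ^ nV p * Real.exp (-(N * fV a)) : ℝ) : ℂ)) * tN w N (vc X E N t))
    (qq w a E) (HH X w a E) hgb (qA.mono (Metric.ball_subset_ball r1)) q0 qd
    (fun u hu => qB u (Metric.ball_subset_ball r2 hu)) hU1 hU2 (by
      filter_upwards [hT] with N hN t ht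
      exact hN t fun j => lt_of_lt_of_le (ht j) r4)
  have e : ∀ N : ℕ, (((√N : ℝ) : ℂ) ^ Module.finrank ℤ X.L)⁻¹ * ∑' t : Fin (Module.finrank ℤ X.L) → ℤ,
      (((√N ^ nV p * Real.exp (-(N * fV a)) : ℝ) : ℂ)) * tN w N (vc X E N t) =
      ((√N ^ nV p / √N ^ Module.finrank ℤ X.L *
      Real.exp (-(N * sSup (fV '' X.Ang))) : ℝ) : ℂ) * X.Z w N := by
    intro N
    rw [Pool.Agent.Q299.FAL.sum_Z X E g1 g2 w N]
    have hsup : sSup (fV '' X.Ang) = fV a := by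
      apply IsGreatest.csSup_eq
      refine ⟨⟨a, ha, rfl⟩, ?_⟩
      rintro _ ⟨a', ha', rfl⟩
      exact hmax a' ha'
    rw [hsup, ← mul_assoc]
    congr 1
    push_cast
    ring
  have hX := Xp.cg hy e
  obtain ⟨z, hz0, hlim⟩ := Pool.Agent.Q299.FAL.task_NET task_T1 task_T2 Pool.Agent.Q299.FAL.task_GI
    Pool.Agent.Q299.FAL.task_LB task_MAX Pool.Agent.Q299.FAL.task_CR Pool.Agent.Q280.FAL.task_NB
    Pool.Agent.Q280.FAL.task_NL c X p w hp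
  refine ⟨y, ?_, hX⟩
  rw [tendsto_nhds_unique (Xp.lim hX) hlim]
  exact hz0

end Pool.Agent.Q99.XF
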