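import Pool.Agent.Q99.HX.Stm
import Pool.Agent.Q299.FAL.NET

/-!
# Full asymptotic expansions for fully augmented links: statements

Project XF (helper99).  The state sum of a net (`Pool/Agent/Q99/FAL/Stm3.lean`, limit: `task_NET` in
`Pool/Agent/Q299/FAL/NET.lean`) has a full asymptotic expansion in powers of `1 / N`.  The brackets
are values of the analytic function `TB` (`Pool/Agent/Q99/HT/Stm2.lean`), which has an expansion by
`S_GX`; the sum is replaced by an integral by `S_MPX` (`HT/Stm3.lean`), and `S_FLAP` (`HX/Stm.lean`)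
is Laplace's method to all orders.

Theorems which may be used: `Pool.Agent.Q99.HT.t_LC`, `t_GAM` (`Q99/HT/Asm1.lean`),
`Pool.Agent.Q24.HT.task_LTd`, `task_TBI`, `Pool.Agent.Q287.HT.task_TBA`, `task_LTH`,
`Pool.Agent.Q251.HT.task_BRK`, `Pool.Agent.Q237.HT.task_GPX`, `task_MPX`,
`Pool.Agent.Q162.HX.task_GX`, `task_FLAP`, `Pool.Agent.Q202.HX2.task_UA`,
`Pool.Agent.Q299.FAL.task_CR`.
-/

set_option autoImplicit false

namespace Pool.Agent.Q99.XF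

open Finset Filter Topology MeasureTheory
open Pool.Agent.W719.BS (D LL)
open Pool.Agent.Q99.FAL
open Pool.Agent.Q99.KN (LC bb Gm St ct S_LC S_GAM)
open Pool.Agent.Q99.HT
open Pool.Agent.Q99.HX (Xp UA Sd S_GX S_UA S_FLAP)
open Pool.Agent.Q299.FAL (vc XL)

/-! ### one bracket -/

/-- **one bracket to all orders**, with shifts.

Proof.  `TB N (ν + s'/N) (ξ - s/N) = Gm (ν + s'/N) / (√N Gm (ν - ξ + (s+s')/N) Gm (ξ + (1/2 - s)/N))`
and `Gm N x * Gm N (1 - x) = 1`, `LC (1 - x) = - LC x` (`S_GAM`, `S_LC`), so for large `N` the function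
is `G_{s'}(ν) G_{-s-s'}(1 - ν + ξ) G_{s - 1/2}(1 - ξ)` with `G_s(x) = Gm N (x + s/N) exp (-(N LC x))`.
`S_GX` with `δ = ρ` (on the set `ν`, `1 - ν + ξ`, `1 - ξ` are in `Sd ρ`), and `S_UA`: (2) for the affine
maps, (1) for the products, (4) because the equation is used for large `N` only.  Compare the proof
of `S_PX` (`Pool/Agent/Q202/HX2/PX.lean`), which is the same for six brackets without `s'`. -/
def S_BX : Prop := ∀ x : ℝ, 0 < x → x < 1 / 2 → ∀ ρ : ℝ, 0 < ρ → 8 * ρ ≤ x → 8 * ρ ≤ 1 / 2 - x →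
  ∀ s s' : ℝ, UA (fun N (p : ℂ × ℂ) => ((√N : ℝ) : ℂ) * TB N (p.1 + s' / N) (p.2 - s / N) *
    Complex.exp (-(N * LT p.1 p.2))) (Metric.ball (1 / 2) ρ ×ˢ Metric.ball (x : ℂ) ρ)

/-! ### nets -/

variable {c d : ℕ}

/-- the data: a net, its maximum `a`, a basis `E` of the lattice, the coordinates `τ` of `a` -/
structure Bs (X : Net c) (p a : Fin c → Fin 6 → ℝ) (E : Fin d → Fin c → Fin 6 → ℤ)
    (τ : Fin d → ℝ) : Prop where
  good : X.Good p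
  top : X.Top p a
  mem : ∀ t : Fin d → ℤ, (∑ j, t j • E j) ∈ X.L
  unq : ∀ a' ∈ X.L, ∃! t : Fin d → ℤ, a' = ∑ j, t j • E j
  ind : ∀ y : Fin d → ℝ, (∑ j, y j • toR (E j)) = 0 → y = 0
  ctr : a - toR X.a0 = ∑ j, τ j • toR (E j)

/-- the brackets which are not equal to `1` -/
def Lv (a : Fin c → Fin 6 → ℝ) (b : Fin c) (i : Fin 6) : Prop := a b i ≠ 0 ∧ a b i ≠ 1 / 2

/-- the lower entry of the bracket `(b, i)` -/
noncomputable def xi (a : Fin c → Fin 6 → ℝ) (E : Fin d → Fin c → Fin 6 → ℤ) (b : Fin c)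
    (i : Fin 6) (u : Fin d → ℂ) : ℂ := (a b i : ℂ) + ∑ j, u j * ((E j b i : ℤ) : ℂ)

/-- the upper entry -/
noncomputable def nu' (E : Fin d → Fin c → Fin 6 → ℤ) (b : Fin c) (i : Fin 6) (u : Fin d → ℂ) : ℂ :=
  1 / 2 + ∑ j, u j * ((dn (E j b) i : ℤ) : ℂ)

/-- the difference `n1 - n2` -/
noncomputable def ze (E : Fin d → Fin c → Fin 6 → ℤ) (b : Fin c) (u : Fin d → ℂ) : ℂ :=
  ∑ j, u j * ((n1 (E j b) - n2 (E j b) : ℤ) : ℂ)

/-- its shift -/
noncomputable def kap (X : Net c) (b : Fin c) : ℂ := ((n1 (X.a0 b) - n2 (X.a0 b) : ℤ) : ℂ)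

open Classical in
/-- the exponent -/
noncomputable def qq (w : Fin c → ℝ) (a : Fin c → Fin 6 → ℝ) (E : Fin d → Fin c → Fin 6 → ℤ)
    (u : Fin d → ℂ) : ℂ :=
  ∑ b, ∑ i, (if Lv a b i then LT (nu' E b i u) (xi a E b i u) - (hh (a b i) : ℂ) else 0) +
    ∑ b, Complex.I * Real.pi * w b / 4 * ze E b u ^ 2

open Classical in
/-- the amplitude -/
noncomputable def HH (X : Net c) (w : Fin c → ℝ) (a : Fin c → Fin 6 → ℝ)
    (E : Fin d → Fin c → Fin 6 → ℤ) (N : ℕ) (u : Fin d → ℂ) : ℂ :=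
  (∏ b, ∏ i, if Lv a b i then ((√N : ℝ) : ℂ) *
      TB N (nu' E b i u + ((1 / 2 - (dn (X.a0 b) i : ℤ) : ℝ) : ℂ) / N)
        (xi a E b i u - (((X.a0 b i : ℤ) : ℝ) : ℂ) / N) *
      Complex.exp (-(N * LT (nu' E b i u) (xi a E b i u))) else 1) *
  ∏ b, Complex.exp (Complex.I * Real.pi * w b * (-(kap X b * ze E b u / 2) + kap X b ^ 2 / (4 * N)))

/-- **the live brackets control all directions.**

Proof.  The steps `hinj` (`g1`, …, `g4`) in the proof of `gau_ne` (`Pool/Agent/Q299/FAL/NET.lean`): if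
`x = XL E y` satisfies `x b i = 0` and `dn (x b) i = 0` for all `(b, i)` with `Lv a b i` then `x = 0`,
so `y = 0` by `ind`.  So the linear map `y ↦ (XL E y b i, dn (XL E y b) i)_{Lv a b i}` is injective;
`LinearMap.exists_antilipschitzWith` as in `lower` of the same file. -/
def S_LV : Prop := ∀ (c d : ℕ) (X : Net c) (p a : Fin c → Fin 6 → ℝ)
  (E : Fin d → Fin c → Fin 6 → ℤ) (τ : Fin d → ℝ), Bs X p a E τ →
  ∃ K : ℝ, 0 < K ∧ ∀ y : Fin d → ℝ, ∑ j, y j ^ 2 ≤ K * ∑ b, ∑ i,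
    open Classical in (if Lv a b i then XL E y b i ^ 2 + dn (XL E y b) i ^ 2 else 0)

/-- **the exponent is analytic, with a critical point at the centre.**

Proof.  `LT ν ξ = LC ν - LC (ν - ξ) - LC ξ`, and `LC` is differentiable on the strip `St` (`S_LC`), so
analytic there (open set); `nu'`, `xi` are affine, with the values `1/2`, `a b i ∈ (0, 1/2)` at `0`
(`0 ≤ a b i ≤ 1/2` by `Net.Ang`; `MX.ang_le` in `Q299/FAL`).  `LT (1/2) x = hh x` (in the proof of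
`S_LTH`, `Pool/Agent/Q287/HT/LTH.lean`).  First derivatives: `gT (1/2) x a b = - a log cos (π x) -
b log tan (π x)` (the same file), so the derivative in the direction `y` (real) is minus the sum of
`task_CR` for `δ = XL E y ∈ X.LR` (for `a b i ∈ {0, 1/2}` the terms there vanish: `Real.log 0 = 0`,
`tan (π/2) = 0` in Lean); the square `ze ^ 2` has the derivative `0`.  The derivative is complex
linear and vanishes on the unit vectors, so it is `0`. -/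
def S_QA : Prop := ∀ (c d : ℕ) (X : Net c) (p a : Fin c → Fin 6 → ℝ)
  (E : Fin d → Fin c → Fin 6 → ℤ) (τ : Fin d → ℝ) (w : Fin c → ℝ), Bs X p a E τ →
  ∃ R : ℝ, 0 < R ∧ AnalyticOnNhd ℂ (qq w a E) (Metric.ball 0 R) ∧ qq w a E 0 = 0 ∧
    fderiv ℂ (qq w a E) 0 = 0

/-- **bound of the exponent.**

Proof.  `S_LTH` (first inequality) for each live bracket with `x = a b i`, for `u` in a small ball.
With `y = Re u`, `Re (xi - a b i) = XL E y b i`, `Re (nu' - 1/2) = dn (XL E y b) i`; the linear parts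
add up to `0` by `task_CR` for `δ = XL E y` (terms with `a b i ∈ {0, 1/2}` vanish in Lean), the
quadratic parts are `≤ - κ ∑_{live} (…)² ≤ - (κ / K) ∑ y_j²` by `S_LV`, the imaginary parts are at
most `K' ∑ (Im u_j)²` (linear forms).  `Re (I π w ze² / 4) = - π w Re ze Im ze / 2`, at most
`ε ∑ (Re u_j)² + C_ε ∑ (Im u_j)²`. -/
def S_QB : Prop := S_LV → ∀ (c d : ℕ) (X : Net c) (p a : Fin c → Fin 6 → ℝ)
  (E : Fin d → Fin c → Fin 6 → ℤ) (τ : Fin d → ℝ) (w : Fin c → ℝ), Bs X p a E τ →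
  ∃ R κ K : ℝ, 0 < R ∧ 0 < κ ∧ 0 < K ∧ ∀ u ∈ Metric.ball (0 : Fin d → ℂ) R,
    (qq w a E u).re ≤ -κ * ∑ j, (u j).re ^ 2 + K * ∑ j, (u j).im ^ 2

/-- **the amplitude to all orders.**

Proof.  `S_BX` for each live bracket (`x = a b i ∈ (0, 1/2)`), composed with the affine maps `nu'`,
`xi`, which map a small ball into the set of `S_BX` (`S_UA` (2)); the phases: `exp` of a linear
function is analytic and bounded on the ball (`S_UA` (3)), and `exp (c / N)` has the expansion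
`∑ c^k / (k! N^k)` (uniform, constant in `u`; there is `Xp.inv` in `Pool/Agent/Q99/HX/Fin2.lean`; by
`UX` of a constant function, or Taylor's formula for `exp`); products: `S_UA` (5), (1).
Differentiability: `Brk.diff` (`task_BRK`) with a smaller radius and large `N`, `LC` differentiable. -/
def S_HU : Prop := S_BX → ∀ (c d : ℕ) (X : Net c) (p a : Fin c → Fin 6 → ℝ)
  (E : Fin d → Fin c → Fin 6 → ℤ) (τ : Fin d → ℝ) (w : Fin c → ℝ), Bs X p a E τ →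
  ∃ R0 : ℝ, 0 < R0 ∧ ∀ R : ℝ, 0 < R → R ≤ R0 → UA (HH X w a E) (Metric.ball 0 R) ∧
    ∀ᶠ N : ℕ in atTop, DifferentiableOn ℂ (HH X w a E N) (Metric.ball 0 R)

/-- **the terms near the centre.**

Proof.  Let `a' = vc X E N t = (N - 1) a0 + ∑ t_j E_j`, `u_j = t_j / N - τ_j`; `a = a0 + ∑ τ_j E_j`
(`ctr`).  Then `a' b i / N = xi - a0 b i / N`, and for `n = dn (a' b) i` (a linear function):
`(n + 1/2) / N = nu' + (1/2 - dn (a0 b) i) / N` because `dn (a b) i = 1/2`; `n1 (a' b) - n2 (a' b) =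
N ze - kap` because `n1 (a b) = n2 (a b)`, so `cs N (w z² / 4) = exp (I π w (N ze² / 4 - kap ze / 2 +
kap² / (4 N)))`.  Live brackets: for `R` small `0 < a' b i`, `0 < n < N` and `a' b i / N` is close to
`a b i`, `n / N` close to `1/2`; `bq N n k = bc N n k` (`S_D1` (1), a theorem in `Q…/HT`; or
`Pool/Agent/Q99/HT/Asm1.lean`) `= TB N ((n + 1/2)/N) (k/N)` by `Brk.int` with `ζ = (2 n + 1 - N)/N`.
Other brackets: `a b i = 0`: `a' b i = 0` (`Good.zero`, `zero0`, `Top`) and `bq N n 0 = 1` (`0 ≤ n < N`);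
`a b i = 1/2`: the other two angles of the triangle vanish, `i ≠ 0, 3` (`s3`, `s1`, `s2`), so
`dn (a' b) i = a' b i` and `bq N n n = 1` (all this is used in the proof of `S_NL`,
`Pool/Agent/Q280/FAL/NL.lean`).  The number of the live brackets is `nV p` (`p b i = 0 ↔ a b i = 0`,
and the same for `1/2`: see `S_NL`), and `hh 0 = hh (1/2) = 0`. -/
def S_TI : Prop := ∀ (c d : ℕ) (X : Net c) (p a : Fin c → Fin 6 → ℝ)
  (E : Fin d → Fin c → Fin 6 → ℤ) (τ : Fin d → ℝ) (w : Fin c → ℝ), Bs X p a E τ →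
  ∃ R : ℝ, 0 < R ∧ ∀ᶠ N : ℕ in atTop, ∀ t : Fin d → ℤ, (∀ j, |(t j : ℝ) / N - τ j| < R) →
    (((√N ^ nV p * Real.exp (-(N * fV a)) : ℝ) : ℂ)) * tN w N (vc X E N t) =
      Complex.exp (N * qq w a E (fun j => (t j : ℂ) / N - τ j)) *
        HH X w a E N (fun j => (t j : ℂ) / N - τ j)

/-! ### sums and integrals -/

/-- **the near points.**

Proof.  `f T = exp (N q (T - τ)) * H N (T - τ)` with `a j = ⌈N (τ j - δ)⌉`, `b j = ⌊N (τ j + δ)⌋`
in `S_MPX` (`task_MPX task_GPX`), `η = 0`, `L = 2 δ + 2`, `U` the ball of radius `R` around `τ`, and a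
small `τ' > 0` in place of its `τ`: on `PR N a b τ'` one has `‖T - τ‖ < R` for large `N` if
`δ ≤ R / 4`, `τ' ≤ R / 4`, and `‖f‖ ≤ B exp (N (-κ |Re|² + K d τ'²))`.  So `A = B exp (N K d τ'²)`, and
on the faces `Re T_i - τ_i` is at least `δ / 2` in absolute value, so
`B' = B exp (N (-κ δ²/4 + K d τ'²))`.  Choose `τ'` with `K d τ' ≤ π`, `K d τ'² ≤ κ δ² / 8`.  The
integral over the box of `S_MPX` and the one over `{∀ j, |x_j| ≤ δ}` (translated by `τ`) differ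
by the integral over a set of volume `≤ C` on which some `|x_j| ≥ δ / 2`.  (`LD` of `f`: `q`, `H N` are
differentiable on the ball.) -/
def S_RX1 : Prop := ∀ (d : ℕ) (τ : Fin d → ℝ) (R κ K B : ℝ), 0 < R → 0 < κ → 0 < K → 0 ≤ B →
  ∀ (q : (Fin d → ℂ) → ℂ) (H : ℕ → (Fin d → ℂ) → ℂ), DifferentiableOn ℂ q (Metric.ball 0 R) →
  (∀ u ∈ Metric.ball (0 : Fin d → ℂ) R,
    (q u).re ≤ -κ * ∑ j, (u j).re ^ 2 + K * ∑ j, (u j).im ^ 2) →
  (∀ᶠ N : ℕ in atTop, DifferentiableOn ℂ (H N) (Metric.ball 0 R)) →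
  (∀ᶠ N : ℕ in atTop, ∀ u ∈ Metric.ball (0 : Fin d → ℂ) R, ‖H N u‖ ≤ B) →
  ∀ δ : ℝ, 0 < δ → δ ≤ R / 4 → ∃ c0 C : ℝ, 0 < c0 ∧ ∀ᶠ N : ℕ in atTop,
  ‖∑ t ∈ Fintype.piFinset (fun j => Icc ⌈(N : ℝ) * (τ j - δ)⌉ ⌊(N : ℝ) * (τ j + δ)⌋),
      Complex.exp (N * q (fun j => (t j : ℂ) / N - τ j)) * H N (fun j => (t j : ℂ) / N - τ j) -
    N ^ d * ∫ x in {x : Fin d → ℝ | ∀ j, |x j| ≤ δ},
      Complex.exp (N * q fun j => x j) * H N fun j => x j‖ ≤ C * N ^ d * Real.exp (-(c0 * N))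

/-- **the far points.**

Proof.  The terms are summable (Gaussian bound; compare `riemann`, `Pool/Agent/Q99/FW/Ts.lean`).  For
`t` outside of the box some `|t_j - N τ_j| > δ N`, so `∑ (t_j - N τ_j)² / N ≥ δ² N / 2 +
∑ (t_j - N τ_j)² / (2 N)`; the sum of `exp (-(κ/2) ∑ (t_j - N τ_j)² / N)` over all `t ∈ ℤ^d` is a
product of `d` one-dimensional sums, each at most `C √N` or `C N`. -/
def S_RX2 : Prop := ∀ (d : ℕ) (τ : Fin d → ℝ) (κ C : ℝ), 0 < κ →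
  ∀ g : ℕ → (Fin d → ℤ) → ℂ,
  (∀ᶠ N : ℕ in atTop, ∀ t : Fin d → ℤ, ‖g N t‖ ≤
    C * Real.exp (-κ * ((∑ j, ((t j : ℝ) - N * τ j) ^ 2) / N))) →
  ∀ δ : ℝ, 0 < δ → ∃ c0 C' : ℝ, 0 < c0 ∧ ∀ᶠ N : ℕ in atTop,
  ‖∑' t : Fin d → ℤ, g N t -
    ∑ t ∈ Fintype.piFinset (fun j => Icc ⌈(N : ℝ) * (τ j - δ)⌉ ⌊(N : ℝ) * (τ j + δ)⌋), g N t‖ ≤
      C' * N ^ d * Real.exp (-(c0 * N))

/-- **a Gaussian sum over a lattice to all orders.**

Proof.  `UA H` gives a bound `B` of `H N` on the ball for large `N` (`K = 0`: check the definition of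
`UX` in `Pool/Agent/W719/AX/Gen.lean`).  `S_FLAP` (`task_FLAP`) with `R`, `κ'`, `ι = Fin d` gives `η0`;
take `δ = min (η0) (R / 4)` (`≤ R/4`), `S_RX1`, `S_RX2`; for `t` in the box `|t_j / N - τ_j| ≤ δ < R`.  So
`(√N^d)⁻¹ ∑' g = √N^d ∫ … + O(N^(d/2) e^{-c N})`, because `N^d = √N^d √N^d`. -/
def S_RX : Prop := S_RX1 → S_RX2 → ∀ (d : ℕ) (τ : Fin d → ℝ) (κ C R κ' K : ℝ), 0 < κ → 0 < R →
  0 < κ' → 0 < K → ∀ (g : ℕ → (Fin d → ℤ) → ℂ) (q : (Fin d → ℂ) → ℂ) (H : ℕ → (Fin d → ℂ) → ℂ),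
  (∀ᶠ N : ℕ in atTop, ∀ t : Fin d → ℤ, ‖g N t‖ ≤
    C * Real.exp (-κ * ((∑ j, ((t j : ℝ) - N * τ j) ^ 2) / N))) →
  AnalyticOnNhd ℂ q (Metric.ball 0 R) → q 0 = 0 → fderiv ℂ q 0 = 0 →
  (∀ u ∈ Metric.ball (0 : Fin d → ℂ) R,
    (q u).re ≤ -κ' * ∑ j, (u j).re ^ 2 + K * ∑ j, (u j).im ^ 2) →
  UA H (Metric.ball 0 R) → (∀ᶠ N : ℕ in atTop, DifferentiableOn ℂ (H N) (Metric.ball 0 R)) →
  (∀ᶠ N : ℕ in atTop, ∀ t : Fin d → ℤ, (∀ j, |(t j : ℝ) / N - τ j| < R) →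
    g N t = Complex.exp (N * q (fun j => (t j : ℂ) / N - τ j)) *
      H N (fun j => (t j : ℂ) / N - τ j)) →
  ∃ y : ℕ → ℂ, Xp (fun N : ℕ => (((√N : ℝ) : ℂ) ^ d)⁻¹ * ∑' t, g N t) y

end Pool.Agent.Q99.XF
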